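import Pool.Agent.Helper65.SG.Goals

/-!
# Project SG (MP_a41896_nt), packet SGT-NQI: the index (helper91)
-/

set_option autoImplicit false

open MvPolynomial

namespace Pool.Agent.Helper91.SGT

open WeierstrassCurve Height
open Pool.Agent.Helper29.BL Pool.Agent.Helper92.Ru Pool.Agent.Helper42.SG Pool.Agent.Helper65.SG

/-- Scaling of the variables. -/
noncomputable def scl {K σ : Type} [Field K] (a : σ → K) :
    MvPolynomial σ K →ₐ[K] MvPolynomial σ K := aeval (fun h => C (a h) * X h)

theorem coeff_scl {K σ : Type} [Field K] [Fintype σ] (a : σ → K) (P : MvPolynomial σ K)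
    (α : σ →₀ ℕ) : coeff α (scl a P) = (∏ h, a h ^ α h) * coeff α P := by
  classical
  induction P using MvPolynomial.induction_on' with
  | monomial u c =>
    have h1 : scl a (monomial u c) = monomial u (c * ∏ h, a h ^ u h) := by
      unfold scl
      rw [aeval_monomial]
      have h2 : (u.prod fun i k => (C (a i) * X i : MvPolynomial σ K) ^ k) =
          C (∏ h, a h ^ u h) * monomial u 1 := by
        rw [Finsupp.prod_fintype _ _ (fun i => pow_zero _)]
        simp only [mul_pow, Finset.prod_mul_distrib]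
        rw [map_prod, ← MvPolynomial.prod_X_pow_eq_monomial]
        simp only [map_pow]
        congr 1
        rw [← Finset.prod_subset (Finset.subset_univ u.support)]
        intro i _ hi
        rw [Finsupp.notMem_support_iff.1 hi, pow_zero]
      rw [h2, algebraMap_eq, ← mul_assoc, ← C_mul, C_mul_monomial, mul_one]
    rw [h1, coeff_monomial, coeff_monomial]
    split_ifs with h
    · rw [h, mul_comm]
    · rw [mul_zero]
  | add p q hp hq =>
    rw [map_add, coeff_add, coeff_add, hp, hq, mul_add]

theorem t_NQI : Pool.Agent.Helper65.SG.NQI := by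
  intro K _ _ W n ξ ψ X' Ψ hT hψ d θ Q hQ
  have ha : ∀ h : Fin (2 * n + 2), (4 * ψ h.val ^ 2 : K) ≠ 0 := by
    intro h
    exact mul_ne_zero (by norm_num) (pow_ne_zero _ (hψ _ h.2))
  have key : ((aeval (fun h : Fin (2 * n + 2) => X' h.val)) :
      MvPolynomial (Fin (2 * n + 2)) K →ₐ[K] MvPowerSeries (Fin (2 * n + 2)) K) =
      (MvPolynomial.coeToMvPowerSeries.algHom (σ := Fin (2 * n + 2)) (R := K) K).comp
        ((scl fun h : Fin (2 * n + 2) => 4 * ψ h.val ^ 2).comp
          (shiftP (fun h : Fin (2 * n + 2) => ξ h.val))) := by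
    apply MvPolynomial.algHom_ext
    intro h
    rw [aeval_X, hT.eqX]
    simp only [AlgHom.comp_apply, shiftP, scl, aeval_X, map_add, map_mul, aeval_C,
      MvPolynomial.coeToMvPowerSeries.algHom_apply, MvPolynomial.coe_add, MvPolynomial.coe_mul,
      MvPolynomial.coe_X, MvPolynomial.algebraMap_eq, MvPolynomial.coe_C]
    simp only [MvPowerSeries.map_C, MvPowerSeries.map_X, Algebra.algebraMap_self, RingHom.id_apply]
    ring
  intro e he
  by_contra hlt
  push Not at hlt
  have h1 := hQ e hlt
  rw [key] at h1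
  rw [AlgHom.comp_apply, MvPolynomial.coeToMvPowerSeries.algHom_apply, AlgHom.comp_apply] at h1
  have h2 : coeff e ((scl fun h : Fin (2 * n + 2) => 4 * ψ h.val ^ 2)
      (shiftP (fun h : Fin (2 * n + 2) => ξ h.val) Q)) = 0 := by
    rw [← h1]
    simp
  rw [coeff_scl] at h2
  rcases mul_eq_zero.1 h2 with h3 | h3
  · exact (Finset.prod_ne_zero_iff.2 fun h _ => pow_ne_zero _ (ha h)) h3
  · exact (mem_support_iff.1 he) h3

end Pool.Agent.Helper91.SGT
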